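import Mathlib
import Pool.Agent.H2.ED.Targets

/-!
# Dense orbits in dimension `ν`, row CHN: the chain rule
-/

set_option autoImplicit false

open MvPolynomial
open Pool.Agent.H18.HIT Pool.Agent.H18.HX Pool.Agent.H18.VZ
open Pool.Agent.H2.ED

namespace Pool.Agent.H43.ED

/-- linear independence of vectors is preserved by field homomorphisms -/
theorem chn_map {n m : ℕ} {F E : Type} [Field F] [Field E] {b : Fin m → Fin n → F}
    (h : LinearIndependent F b) (ι : F →+* E) :
    LinearIndependent E (fun i => fun j => ι (b i j)) := by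
  let := ι.toAlgebra
  exact linearIndependent_algebraMap_comp_iff.2 h

section main

/-- a map which satisfies the product rule over `σ` -/
theorem chn_der {k R K : Type} [Field k] [CommRing K] [CommRing R] [Algebra k R] (σ : R →+* K)
    (δ : R → K)
    (hadd : ∀ x y, δ (x + y) = δ x + δ y) (hmul : ∀ x y, δ (x * y) = σ x * δ y + σ y * δ x)
    (hC : ∀ c : k, δ (algebraMap k R c) = 0) {N : ℕ} (x : Fin N → R) (p : MvPolynomial (Fin N) k) :
    δ (aeval x p) = ∑ l, σ (aeval x (pderiv l p)) * δ (x l) := by
  classical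
  induction p using MvPolynomial.induction_on with
  | C a =>
    rw [aeval_C, hC]
    simp
  | add p q hp hq =>
    rw [map_add, hadd, hp, hq, ← Finset.sum_add_distrib]
    apply Finset.sum_congr rfl
    intro l _
    rw [map_add, map_add, map_add]
    ring
  | mul_X p i hp =>
    rw [map_mul, aeval_X, hmul, hp, Finset.mul_sum]
    have h1 : ∀ l, σ (aeval x (pderiv l (p * X i))) * δ (x l) =
        σ (x i) * (σ (aeval x (pderiv l p)) * δ (x l)) +
          (if l = i then σ (aeval x p) * δ (x i) else 0) := by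
      intro l
      rw [pderiv_mul, map_add, map_mul, map_mul, aeval_X, map_add, map_mul]
      by_cases h : l = i
      · subst h
        rw [pderiv_X_self, map_one, mul_one, if_pos rfl]
        ring
      · rw [pderiv_X_of_ne (Ne.symm h), map_zero, mul_zero, map_zero, if_neg h]
        ring
    rw [Finset.sum_congr rfl fun l _ => h1 l, Finset.sum_add_distrib]
    simp only [Finset.sum_ite_eq', Finset.mem_univ, if_true]
    ring

end main

theorem pf_CHN : Pool.Agent.H2.ED.T_CHN := by
  intro ν r₀ r d k K κ _ _ _ _ _ _ P V T ξ η τ τV R ρ D hP hPV hmi hT hTV hFd hFv hL hP0 hD hdet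
  classical
  -- the elements of the ring
  set x : Fin (ν + 2) → R := fun i => ⟨ξ i, by
    have := hL.mem (X i)
    rwa [aeval_X] at this⟩ with hx
  have hxa : ∀ p : Po (ν + 2) k, ((aeval x p : R) : K) = aeval ξ p := by
    intro p
    have h1 : R.val (aeval x p) = aeval (fun i => R.val (x i)) p := by
      rw [← AlgHom.comp_apply, comp_aeval]
    exact h1
  have hρ : ∀ p : Po (ν + 2) k, ρ (aeval x p) = aeval η p := by
    intro p
    have h1 : (aeval x p : R) = ⟨aeval ξ p, hL.mem p⟩ := Subtype.ext (hxa p)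
    rw [h1, hL.val]
  have hD' : ∀ (j : Fin ν) (p : Po (ν + 2) k),
      D j (aeval x p) * aeval x (pderiv 0 P) = aeval x (dd P j.succ p) := by
    intro j p
    apply Subtype.ext
    have h1 : (aeval x p : R) = ⟨aeval ξ p, hL.mem p⟩ := Subtype.ext (hxa p)
    rw [MulMemClass.coe_mul, hxa, hxa, h1]
    exact hD j p (hL.mem p)
  have hunit : ∀ z : R, ρ z ≠ 0 → ∃ z' : R, z * z' = 1 := by
    intro z hz
    have hz0 : (z : K) ≠ 0 := by
      intro h
      have : z = 0 := Subtype.ext h
      rw [this, map_zero] at hz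
      exact hz rfl
    exact ⟨⟨(z : K)⁻¹, hL.inv z hz⟩, Subtype.ext (mul_inv_cancel₀ hz0)⟩
  obtain ⟨u, hu⟩ := hunit (aeval x (T 1)) (by rw [hρ]; exact hFv.ne)
  -- the images of the coordinates
  set y : Fin (ν + 2) → R := fun i => aeval x (T i) * u with hy
  have hT1 : aeval ξ (T 1) * (u : K) = 1 := by
    rw [← hxa, ← MulMemClass.coe_mul, hu]
    rfl
  have hT1' : aeval η (T 1) * ρ u = 1 := by
    rw [← hρ, ← map_mul, hu, map_one]
  have hyτ : ∀ i, (y i : K) = τ (ξ i) := by
    intro i
    have h1 := hFd.eq i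
    rw [hy]
    show ((aeval x (T i) : R) : K) * (u : K) = τ (ξ i)
    rw [hxa, ← h1, mul_assoc, hT1, mul_one]
  have hyρ : ∀ i, ρ (y i) = τV (η i) := by
    intro i
    have h1 := hFv.eq i
    rw [hy]
    show ρ (aeval x (T i) * u) = _
    rw [map_mul, hρ, ← h1, mul_assoc, hT1', mul_one]
  have hyτ' : ∀ p : Po (ν + 2) k, ((aeval y p : R) : K) = τ (aeval ξ p) := by
    intro p
    have h1 : R.val (aeval y p) = aeval (fun i => R.val (y i)) p := by
      rw [← AlgHom.comp_apply, comp_aeval]
    have h2 : τ (aeval ξ p) = aeval (fun i => τ (ξ i)) p := by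
      rw [← AlgHom.comp_apply, comp_aeval]
    rw [h2]
    have h3 : (fun i => τ (ξ i)) = fun i => R.val (y i) := funext fun i => (hyτ i).symm
    rw [h3]
    exact h1
  have hyρ' : ∀ p : Po (ν + 2) k, ρ (aeval y p) = τV (aeval η p) := by
    intro p
    rw [← AlgHom.comp_apply, ← AlgHom.comp_apply, comp_aeval, comp_aeval]
    have h3 : (fun i => ρ (y i)) = fun i => τV (η i) := funext hyρ
    rw [h3]
  have hξne : ∀ q : Po (ν + 2) k, aeval η q ≠ 0 → aeval ξ q ≠ 0 := by
    intro q hq h
    apply hq
    rw [← hρ, show (aeval x q : R) = 0 from Subtype.ext ((hxa q).trans h), map_zero]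
  have hA : ∀ z : R, ∃ z' : R, (z' : K) = τ z ∧ ρ z' = τV (ρ z) := by
    intro z
    obtain ⟨p, q, hq, hpq⟩ := hL.frc z
    have hpqR : z * aeval x q = aeval x p := by
      apply Subtype.ext
      rw [MulMemClass.coe_mul, hxa, hxa]
      exact hpq
    obtain ⟨w, hw⟩ := hunit (aeval y q) (by
      rw [hyρ']
      exact (map_ne_zero τV).2 hq)
    refine ⟨aeval y p * w, ?_, ?_⟩
    · rw [MulMemClass.coe_mul, hyτ', ← hpq, map_mul, mul_assoc, ← hyτ', ← MulMemClass.coe_mul, hw]
      exact mul_one _
    · have h1 := congrArg ρ hpqR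
      rw [map_mul, hρ, hρ] at h1
      rw [map_mul, hyρ', ← h1, map_mul, mul_assoc, ← hyρ', ← map_mul, hw, map_one, mul_one]
  refine ⟨hA, ?_⟩
  -- the endomorphism of the ring
  have hmemτ : ∀ z : R, (τ.comp R.val) z ∈ R := by
    intro z
    obtain ⟨z', hz', -⟩ := hA z
    show τ (z : K) ∈ R
    rw [← hz']
    exact z'.2
  set σ : R →ₐ[k] R := (τ.comp R.val).codRestrict R hmemτ with hσ
  have hσv : ∀ z : R, ((σ z : R) : K) = τ (z : K) := fun z => rfl
  have hσρ : ∀ z : R, ρ (σ z) = τV (ρ z) := by
    intro z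
    obtain ⟨z', hz', h2⟩ := hA z
    rw [← h2]
    congr 1
    exact Subtype.ext hz'.symm
  have hσx : ∀ i, σ (x i) = y i := fun i => Subtype.ext (hyτ i).symm
  have hσa : ∀ p : Po (ν + 2) k, σ (aeval x p) = aeval y p := fun p =>
    Subtype.ext (by rw [hσv, hxa, hyτ'])
  have hP0R : (aeval x (pderiv 0 P) : R) ≠ 0 := by
    intro h
    apply hP0
    rw [← hρ, h, map_zero]
  have hσinj : ∀ z : R, z ≠ 0 → σ z ≠ 0 := by
    intro z hz h
    apply hz
    have h1 := congrArg (Subtype.val) h
    rw [hσv] at h1
    exact Subtype.ext ((map_eq_zero τ).1 h1)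
  -- the derivatives of the coordinates
  have hDx : ∀ (j i : Fin ν), D j (x i.succ.succ) = if i = j then 1 else 0 := by
    intro j i
    have h1 := hD' j (X i.succ.succ)
    have h2 : dd P j.succ (X i.succ.succ) = pderiv 0 P * (if i = j then 1 else 0) := by
      unfold dd
      rw [Derivation.sub_apply, Derivation.smul_apply, Derivation.smul_apply, smul_eq_mul,
        smul_eq_mul, pderiv_X_of_ne (Fin.succ_ne_zero i.succ), mul_zero, sub_zero]
      by_cases h : i = j
      · subst h
        rw [pderiv_X_self, if_pos rfl]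
      · rw [pderiv_X_of_ne (fun h' => h (Fin.succ_injective _ (Fin.succ_injective _ h'))),
          if_neg h]
    rw [h2, map_mul, aeval_X, mul_comm] at h1
    have h3 := mul_left_cancel₀ hP0R h1
    rw [h3]
    split_ifs <;> simp
  have hDx1 : ∀ j, D j (x 1) = 0 := by
    intro j
    have h1 : x 1 = 1 := Subtype.ext hFd.gp.one
    rw [h1, Derivation.map_one_eq_zero]
  -- the chain rule
  have hchain : ∀ (j : Fin ν) (z : R), D j (σ z) = ∑ i, σ (D i z) * D j (y i.succ.succ) := by
    intro j z
    obtain ⟨δ, hδ⟩ : ∃ δ : R → R, ∀ z, δ z = D j (σ z) - ∑ i, σ (D i z) * D j (y i.succ.succ) :=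
      ⟨_, fun _ => rfl⟩
    have hadd : ∀ a b, δ (a + b) = δ a + δ b := by
      intro a b
      rw [hδ, hδ, hδ, map_add, map_add]
      have h1 : ∀ i, σ (D i (a + b)) * D j (y i.succ.succ) =
          σ (D i a) * D j (y i.succ.succ) + σ (D i b) * D j (y i.succ.succ) := by
        intro i
        rw [map_add, map_add, add_mul]
      rw [Finset.sum_congr rfl fun i _ => h1 i, Finset.sum_add_distrib]
      ring
    have hmul : ∀ a b, δ (a * b) = (σ : R →+* R) a * δ b + (σ : R →+* R) b * δ a := by
      intro a b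
      rw [hδ, hδ, hδ, map_mul, Derivation.leibniz]
      have h1 : ∀ i, σ (D i (a * b)) * D j (y i.succ.succ) =
          σ a * (σ (D i b) * D j (y i.succ.succ)) + σ b * (σ (D i a) * D j (y i.succ.succ)) := by
        intro i
        rw [Derivation.leibniz, smul_eq_mul, smul_eq_mul, map_add, map_mul, map_mul]
        ring
      rw [Finset.sum_congr rfl fun i _ => h1 i, Finset.sum_add_distrib, ← Finset.mul_sum,
        ← Finset.mul_sum, smul_eq_mul, smul_eq_mul]
      show _ = σ a * _ + σ b * _
      ring
    have hC : ∀ c : k, δ (algebraMap k R c) = 0 := by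
      intro c
      rw [hδ, AlgHom.commutes, Derivation.map_algebraMap, zero_sub, neg_eq_zero]
      apply Finset.sum_eq_zero
      intro i _
      rw [Derivation.map_algebraMap, map_zero, zero_mul]
    have hx2 : ∀ i : Fin ν, δ (x i.succ.succ) = 0 := by
      intro i
      rw [hδ, hσx]
      have h1 : ∀ i', σ (D i' (x i.succ.succ)) * D j (y i'.succ.succ) =
          if i = i' then D j (y i.succ.succ) else 0 := by
        intro i'
        rw [hDx]
        split_ifs with h
        · subst h
          rw [map_one, one_mul]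
        · rw [map_zero, zero_mul]
      rw [Finset.sum_congr rfl fun i' _ => h1 i']
      simp
    have hx1 : δ (x 1) = 0 := by
      have h1 : x 1 = algebraMap k R 1 := by
        rw [map_one]
        exact Subtype.ext hFd.gp.one
      rw [h1, hC]
    have hall : ∀ p : Po (ν + 2) k, δ (aeval x p) = σ (aeval x (pderiv 0 p)) * δ (x 0) := by
      intro p
      rw [chn_der (σ : R →+* R) δ hadd hmul hC, Fin.sum_univ_succ, Fin.sum_univ_succ]
      have h1 : δ (x (Fin.succ 0)) = 0 := hx1
      rw [h1, mul_zero, zero_add]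
      simp only [hx2, mul_zero, Finset.sum_const_zero, add_zero]
      rfl
    have hx0 : δ (x 0) = 0 := by
      have h1 := hall P
      have h2 : (aeval x P : R) = 0 := Subtype.ext ((hxa P).trans
        ((hFd.gp.iff r₀ P hP.hom).2 dvd_rfl))
      have h3 : δ 0 = 0 := by
        have := hC 0
        rwa [map_zero] at this
      rw [h2, h3] at h1
      exact (mul_eq_zero.1 h1.symm).resolve_left (hσinj _ hP0R)
    have hall' : ∀ p : Po (ν + 2) k, δ (aeval x p) = 0 := fun p => by
      rw [hall, hx0, mul_zero]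
    obtain ⟨p, q, hq, hpq⟩ := hL.frc z
    have hpqR : z * aeval x q = aeval x p := by
      apply Subtype.ext
      rw [MulMemClass.coe_mul, hxa, hxa]
      exact hpq
    have h1 := hmul z (aeval x q)
    rw [hpqR, hall', hall', mul_zero, zero_add] at h1
    have hqR : (aeval x q : R) ≠ 0 := by
      intro h
      apply hq
      rw [← hρ, h, map_zero]
    have h2 : δ z = 0 := (mul_eq_zero.1 h1.symm).resolve_left (hσinj _ hqR)
    rw [hδ] at h2
    exact sub_eq_zero.1 h2
  set M : Matrix (Fin ν) (Fin ν) κ := Matrix.of fun i j => ρ (D j (y i.succ.succ)) with hM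
  have hMdet : M.det ≠ 0 := by
    intro h0
    apply hdet
    set c : κ := aeval η (T 1) ^ 2 * aeval η (pderiv 0 P) with hc
    have h1 : (jm P T).map (aeval η : Po (ν + 2) k →ₐ[k] κ) = c • M := by
      refine Matrix.ext fun i j => ?_
      rw [Matrix.map_apply, Matrix.smul_apply, smul_eq_mul]
      have e1 := hu
      have e2 : aeval x (T 1) * D j u + u * D j (aeval x (T 1)) = 0 := by
        have := congrArg (D j) hu
        rwa [Derivation.leibniz, smul_eq_mul, smul_eq_mul, Derivation.map_one_eq_zero] at this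
      have e3 := hD' j (T i.succ.succ)
      have e4 := hD' j (T 1)
      have e5 : D j (y i.succ.succ) * (aeval x (T 1) ^ 2 * aeval x (pderiv 0 P)) =
          aeval x (jm P T i j) := by
        have e6 : D j (y i.succ.succ) =
            aeval x (T i.succ.succ) * D j u + u * D j (aeval x (T i.succ.succ)) := by
          rw [hy]
          show D j (aeval x (T i.succ.succ) * u) = _
          rw [Derivation.leibniz, smul_eq_mul, smul_eq_mul]
        have e7 : aeval x (jm P T i j) = aeval x (dd P j.succ (T i.succ.succ)) * aeval x (T 1) -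
            aeval x (T i.succ.succ) * aeval x (dd P j.succ (T 1)) := by
          rw [← map_mul, ← map_mul, ← map_sub]
          rfl
        rw [e6, e7]
        linear_combination (aeval x (T 1) * aeval x (pderiv 0 P) * aeval x (T i.succ.succ)) * e2 +
          (aeval x (T 1) * aeval x (pderiv 0 P) * D j (aeval x (T i.succ.succ)) -
            aeval x (pderiv 0 P) * aeval x (T i.succ.succ) * D j (aeval x (T 1))) * e1 +
          aeval x (T 1) * e3 - aeval x (T i.succ.succ) * e4
      have e8 : ρ (D j (y i.succ.succ)) * (aeval η (T 1) ^ 2 * aeval η (pderiv 0 P)) =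
          aeval η (jm P T i j) := by
        rw [← hρ (jm P T i j), ← e5, map_mul ρ (D j (y i.succ.succ)),
          map_mul ρ (aeval x (T 1) ^ 2), map_pow, hρ, hρ]
      rw [hc, mul_comm]
      exact e8.symm
    have h2 : aeval η (jm P T).det = ((jm P T).map (aeval η : Po (ν + 2) k →ₐ[k] κ)).det :=
      AlgHom.map_det (aeval η : Po (ν + 2) k →ₐ[k] κ) (jm P T)
    rw [h2, h1, Matrix.det_smul, h0, mul_zero]
  intro m z z' hz' hli
  have hz'' : ∀ i, z' i = σ (z i) := fun i => Subtype.ext (hz' i)
  have hrow : ∀ i, (fun j => ρ (D j (z' i))) =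
      Matrix.vecMul (fun l => τV (ρ (D l (z i)))) M := by
    intro i
    funext j
    rw [hz'', hchain, map_sum]
    simp only [Matrix.vecMul, dotProduct, hM, Matrix.of_apply, map_mul, hσρ]
  have h1 : LinearIndependent κ (fun i => fun l => τV (ρ (D l (z i)))) :=
    chn_map hli (τV : κ →+* κ)
  have h2 : LinearIndependent κ (M.vecMulLinear ∘ (fun i => fun l => τV (ρ (D l (z i))))) :=
    h1.map' _ (LinearMap.ker_eq_bot.2 (Matrix.vecMul_injective_iff_isUnit.2
      ((Matrix.isUnit_iff_isUnit_det M).2 (isUnit_iff_ne_zero.2 hMdet))))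
  have h3 : (fun i => fun j => ρ (D j (z' i))) =
      M.vecMulLinear ∘ (fun i => fun l => τV (ρ (D l (z i)))) := by
    funext i
    rw [hrow]
    rfl
  rw [h3]
  exact h2

end Pool.Agent.H43.ED
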