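import Mathlib
import Pool.Agent.H2.ED.Targets
import Pool.Agent.H43.ED.CHN

/-!
# Dense orbits in dimension `ν`, row JCB: derivations
-/

set_option autoImplicit false

open MvPolynomial
open Pool.Agent.H18.HIT Pool.Agent.H18.HX Pool.Agent.H18.VZ
open Pool.Agent.H2.ED

namespace Pool.Agent.H43.ED

open TensorProduct in
/-- derivations with given values on a transcendence basis -/
theorem jcb_exists_der {k L : Type} [Field k] [CharZero k] [Field L] [Algebra k L] {t : Type}
    {v : t → L} (hb : IsTranscendenceBasis k v) (w : t → L) :
    ∃ D : Derivation k L L, ∀ i, D (v i) = w i := by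
  have : CharZero L := charZero_of_injective_algebraMap (algebraMap k L).injective
  let alg : Algebra (MvPolynomial t k) L := (aeval v).toAlgebra
  have halg : ∀ p : MvPolynomial t k, algebraMap (MvPolynomial t k) L p = aeval v p := fun p => rfl
  have st : IsScalarTower k (MvPolynomial t k) L := IsScalarTower.of_algebraMap_eq fun q => by
    rw [halg, MvPolynomial.algebraMap_eq, aeval_C]
  have hinj : Function.Injective (algebraMap (MvPolynomial t k) L) := hb.1
  have hf : FaithfulSMul (MvPolynomial t k) L := (faithfulSMul_iff_algebraMap_injective _ _).2 hinj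
  have hal : Algebra.IsAlgebraic (MvPolynomial t k) L := by
    have h1 := hb.isAlgebraic
    exact h1.of_ringHom_of_comp_eq (hb.1.aevalEquiv : MvPolynomial t k ≃+* _) (RingHom.id L)
      (RingEquiv.surjective _) Function.injective_id (by
        ext p
        · simp
          rw [halg, aeval_C]
        · exact hb.1.algebraMap_aevalEquiv _)
  let algF : Algebra (FractionRing (MvPolynomial t k)) L := FractionRing.liftAlgebra _ _
  have stF : IsScalarTower (MvPolynomial t k) (FractionRing (MvPolynomial t k)) L :=
    FractionRing.isScalarTower_liftAlgebra _ _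
  have halF : Algebra.IsAlgebraic (FractionRing (MvPolynomial t k)) L :=
    (IsFractionRing.comap_isAlgebraic_iff (A := MvPolynomial t k)
      (K := FractionRing (MvPolynomial t k)) (C := L)).1 hal
  have hc0 : CharZero (MvPolynomial t k) :=
    charZero_of_injective_algebraMap (MvPolynomial.C_injective t k)
  have hc1 : CharZero (FractionRing (MvPolynomial t k)) :=
    charZero_of_injective_algebraMap
      (IsFractionRing.injective (MvPolynomial t k) (FractionRing (MvPolynomial t k)))
  have et1 : Algebra.FormallyEtale (MvPolynomial t k) (FractionRing (MvPolynomial t k)) :=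
    Algebra.FormallyEtale.of_isLocalization (nonZeroDivisors (MvPolynomial t k))
  have et2 : Algebra.FormallyEtale (FractionRing (MvPolynomial t k)) L :=
    Algebra.FormallyEtale.of_isSeparable _ _
  have et : Algebra.FormallyEtale (MvPolynomial t k) L :=
    Algebra.FormallyEtale.comp (MvPolynomial t k) (FractionRing (MvPolynomial t k)) L
  let D0 : Derivation k (MvPolynomial t k) L := mkDerivation k w
  let l : L ⊗[MvPolynomial t k] (Ω[MvPolynomial t k⁄k]) →ₗ[L] L :=
    D0.liftKaehlerDifferential.liftBaseChange L
  let e := KaehlerDifferential.tensorKaehlerEquivOfFormallyEtale k (MvPolynomial t k) L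
  refine ⟨(l ∘ₗ e.symm.toLinearMap).compDer (KaehlerDifferential.D k L), fun i => ?_⟩
  have h2 : v i = algebraMap (MvPolynomial t k) L (X i) := by rw [halg, aeval_X]
  change l (e.symm (KaehlerDifferential.D k L (v i))) = w i
  rw [h2]
  rw [KaehlerDifferential.tensorKaehlerEquivOfFormallyEtale_symm_D_algebraMap]
  rw [LinearMap.liftBaseChange_tmul, one_smul, Derivation.liftKaehlerDifferential_comp_D]
  exact mkDerivation_X k w i

/-- a derivation which kills a subalgebra kills everything algebraic over it -/
theorem jcb_der_zero {k B : Type} [Field k] [Field B] [Algebra k B] [CharZero B]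
    (D : Derivation k B B) (A : Subalgebra k B) (hA : ∀ a ∈ A, D a = 0) {b : B}
    (hb : IsAlgebraic A b) : D b = 0 := by
  classical
  let D' : Derivation A B B :=
    { toFun := D
      map_add' := D.map_add
      map_smul' := by
        intro a x
        have h1 : D (a : B) = 0 := hA _ a.2
        have h2 : a • x = (a : B) * x := rfl
        rw [h2, D.leibniz, RingHom.id_apply, h1, smul_zero, add_zero]
        rfl
      map_one_eq_zero' := D.map_one_eq_zero
      leibniz' := D.leibniz }
  have hex : ∃ n, ∃ P : Polynomial A, P ≠ 0 ∧ Polynomial.aeval b P = 0 ∧ P.natDegree = n := by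
    obtain ⟨P, hP, hPb⟩ := hb
    exact ⟨_, P, hP, hPb, rfl⟩
  obtain ⟨P, hP, hPb, hdeg⟩ := Nat.find_spec hex
  have hmin := fun m (hm : m < Nat.find hex) => Nat.find_min hex hm
  have h1 : D' (Polynomial.aeval b P) = Polynomial.aeval b (Polynomial.derivative P) • D' b :=
    D'.map_aeval P b
  rw [hPb, map_zero] at h1
  have h2 : P.natDegree ≠ 0 := by
    intro h0
    rw [Polynomial.eq_C_of_natDegree_eq_zero h0, Polynomial.aeval_C] at hPb
    apply hP
    rw [Polynomial.eq_C_of_natDegree_eq_zero h0]
    have h3 : P.coeff 0 = 0 := by
      apply Subtype.ext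
      exact hPb
    rw [h3, Polynomial.C_0]
  have h3 : Polynomial.derivative P ≠ 0 := by
    intro h0
    have h4 := Polynomial.derivative_eq_zero.mp h0
    exact h2 h4
  have h4 : Polynomial.aeval b (Polynomial.derivative P) ≠ 0 := by
    intro h0
    apply hmin (Polynomial.derivative P).natDegree
    · rw [← hdeg]
      exact Polynomial.natDegree_derivative_lt h2
    · exact ⟨_, h3, h0, rfl⟩
  rw [smul_eq_mul] at h1
  exact (mul_eq_zero.mp h1.symm).resolve_left h4

/-- the dimension of the space of derivations -/
theorem jcb_finrank_der {k κ : Type} [Field k] [CharZero k] [Field κ] [Algebra k κ] (r : ℕ)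
    (h : Algebra.trdeg k κ = r) :
    Module.Finite κ (Derivation k κ κ) ∧ Module.finrank κ (Derivation k κ κ) = r := by
  have hc : CharZero κ := charZero_of_injective_algebraMap (algebraMap k κ).injective
  obtain ⟨t, v, hb⟩ := exists_isTranscendenceBasis' k κ
  have hcard := hb.cardinalMk_eq_trdeg
  rw [h] at hcard
  have hfin : Finite t := by
    rw [← Cardinal.lt_aleph0_iff_finite, hcard]
    exact Cardinal.natCast_lt_aleph0
  have := Fintype.ofFinite t
  have hcard' : Fintype.card t = r := by
    rw [Cardinal.mk_fintype] at hcard
    exact_mod_cast hcard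
  let E : Derivation k κ κ →ₗ[κ] (t → κ) :=
    { toFun := fun δ i => δ (v i)
      map_add' := fun a b => by
        funext i
        rfl
      map_smul' := fun a b => by
        funext i
        rfl }
  have hbij : Function.Bijective E := by
    constructor
    · rw [← LinearMap.ker_eq_bot, LinearMap.ker_eq_bot']
      intro δ hδ
      have h1 : ∀ i, δ (v i) = 0 := fun i => congrFun hδ i
      ext b
      rw [Derivation.zero_apply]
      apply jcb_der_zero δ (Algebra.adjoin k (Set.range v)) ?_ (hb.isAlgebraic.isAlgebraic b)
      intro a ha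
      induction ha using Algebra.adjoin_induction with
      | mem x hx =>
        obtain ⟨i, rfl⟩ := hx
        exact h1 i
      | algebraMap r => exact δ.map_algebraMap r
      | add x y _ _ hx hy => rw [map_add, hx, hy, add_zero]
      | mul x y _ _ hx hy => rw [δ.leibniz, hx, hy, smul_zero, smul_zero, add_zero]
    · intro w
      obtain ⟨D, hD⟩ := jcb_exists_der hb w
      exact ⟨D, funext hD⟩
  let e := LinearEquiv.ofBijective E hbij
  refine ⟨Module.Finite.equiv e.symm, ?_⟩
  rw [e.finrank_eq, Module.finrank_fintype_fun_eq_card, hcard']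

/-- extension of a derivation to the field of fractions -/
theorem jcb_ext_der {k A L : Type} [Field k] [CommRing A] [IsDomain A] [Algebra k A] [Field L]
    [Algebra A L] [Algebra k L] [IsScalarTower k A L] [IsFractionRing A L]
    (δ : Derivation k A L) : ∃ D : Derivation k L L, ∀ a, D (algebraMap A L a) = δ a := by
  have h1 : Algebra.FormallyEtale A L := Algebra.FormallyEtale.of_isLocalization (nonZeroDivisors A)
  let e := KaehlerDifferential.tensorKaehlerEquivOfFormallyEtale k A L
  let f : TensorProduct A L (KaehlerDifferential k A) →ₗ[L] L :=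
    LinearMap.liftBaseChange L δ.liftKaehlerDifferential
  refine ⟨(f.comp e.symm.toLinearMap).compDer (KaehlerDifferential.D k L), fun a => ?_⟩
  show f (e.symm (KaehlerDifferential.D k L (algebraMap A L a))) = δ a
  rw [KaehlerDifferential.tensorKaehlerEquivOfFormallyEtale_symm_D_algebraMap]
  simp [f]

end Pool.Agent.H43.ED
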