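import Mathlib
import Pool.Agent.H2.ED.Targets
import Pool.Agent.H43.ED.CHN
import Pool.Agent.H43.ED.JCBa

/-!
# Dense orbits in dimension `ν`, row JCB: the conormal space
-/

set_option autoImplicit false

open MvPolynomial
open Pool.Agent.H18.HIT Pool.Agent.H18.HX Pool.Agent.H18.VZ
open Pool.Agent.H2.ED

namespace Pool.Agent.H43.ED

section

variable {ν : ℕ} {k κ : Type} [Field k] [Field κ] [Algebra k κ]

theorem jcb_dd_X (P : Po (ν + 2) k) (j i : Fin ν) :
    dd P j.succ (X i.succ.succ) = pderiv 0 P * (if i = j then 1 else 0) := by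
  unfold dd
  rw [Derivation.sub_apply, Derivation.smul_apply, Derivation.smul_apply, smul_eq_mul,
    smul_eq_mul, pderiv_X_of_ne (Fin.succ_ne_zero i.succ), mul_zero, sub_zero]
  by_cases h : i = j
  · subst h
    rw [pderiv_X_self, if_pos rfl]
  · rw [pderiv_X_of_ne (fun h' => h (Fin.succ_injective _ (Fin.succ_injective _ h'))),
      if_neg h]

theorem jcb_dd_one (P : Po (ν + 2) k) (j : Fin ν) : dd P j.succ (X 1) = 0 := by
  unfold dd
  have h1 : (1 : Fin (ν + 2)) ≠ 0 := by
    intro h
    have h3 := congrArg Fin.val h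
    simp at h3
  have h2 : (1 : Fin (ν + 2)) ≠ j.succ.succ := by
    intro h
    have h3 : (0 : Fin (ν + 1)) = j.succ := Fin.succ_injective _ h
    exact Fin.succ_ne_zero j h3.symm
  rw [Derivation.sub_apply, Derivation.smul_apply, Derivation.smul_apply, smul_eq_mul,
    smul_eq_mul, pderiv_X_of_ne h1, pderiv_X_of_ne h2, mul_zero, mul_zero, sub_zero]

theorem jcb_der_eval (δ : Derivation k κ κ) (η : Fin (ν + 2) → κ) (h1 : η 1 = 1)
    (p : Po (ν + 2) k) : δ (aeval η p) = aeval η (pderiv 0 p) * δ (η 0) +
      ∑ j : Fin ν, aeval η (pderiv j.succ.succ p) * δ (η j.succ.succ) := by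
  have e1 := chn_der (RingHom.id κ) δ (fun a b => map_add δ a b)
    (fun a b => by
      rw [Derivation.leibniz, smul_eq_mul, smul_eq_mul]
      rfl) (fun c => δ.map_algebraMap c) η p
  rw [e1, Fin.sum_univ_succ, Fin.sum_univ_succ]
  have e2 : δ (η (Fin.succ 0)) = 0 := by
    have : η (Fin.succ 0) = 1 := h1
    rw [this, Derivation.map_one_eq_zero]
  rw [e2, mul_zero, zero_add]
  rfl

theorem jcb_perp (P : Po (ν + 2) k) (δ : Derivation k κ κ) (η : Fin (ν + 2) → κ) (h1 : η 1 = 1)
    (hP : aeval η P = 0) (p : Po (ν + 2) k) (hp : aeval η p = 0) :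
    ∑ j, gr P η p j * δ (η j.succ.succ) = 0 := by
  have e1 := jcb_der_eval δ η h1 p
  have e2 := jcb_der_eval δ η h1 P
  rw [hp, map_zero] at e1
  rw [hP, map_zero] at e2
  have e3 : ∀ j : Fin ν, gr P η p j * δ (η j.succ.succ) =
      aeval η (pderiv 0 P) * (aeval η (pderiv j.succ.succ p) * δ (η j.succ.succ)) -
        aeval η (pderiv 0 p) * (aeval η (pderiv j.succ.succ P) * δ (η j.succ.succ)) := by
    intro j
    have : gr P η p j = aeval η (pderiv 0 P) * aeval η (pderiv j.succ.succ p) -
        aeval η (pderiv j.succ.succ P) * aeval η (pderiv 0 p) := by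
      unfold gr dd
      rw [Derivation.sub_apply, Derivation.smul_apply, Derivation.smul_apply, smul_eq_mul,
        smul_eq_mul, map_sub, map_mul, map_mul]
    rw [this]
    ring
  rw [Finset.sum_congr rfl fun j _ => e3 j, Finset.sum_sub_distrib, ← Finset.mul_sum,
    ← Finset.mul_sum]
  linear_combination (-(aeval η (pderiv 0 P))) * e1 + aeval η (pderiv 0 p) * e2

/-- the elements of `V` vanish at the generic point -/
theorem jcb_aeval_zero {V : Ideal (Po (ν + 2) k)} {r : ℕ} {η : Fin (ν + 2) → κ}
    (hV : Hmi V) (hG : Gv V r η) {p : Po (ν + 2) k} (hp : p ∈ V) : aeval η p = 0 := by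
  rw [← sum_homogeneousComponent p, map_sum]
  apply Finset.sum_eq_zero
  intro s _
  exact (hG.iff s _ (homogeneousComponent_isHomogeneous s p)).2 (hV p hp s)

/-- derivations with given values -/
theorem jcb_ext (P : Po (ν + 2) k) {V : Ideal (Po (ν + 2) k)} {r : ℕ} {η : Fin (ν + 2) → κ}
    (hG : Gv V r η) (hP0 : aeval η (pderiv 0 P) ≠ 0) (v : Fin ν → κ)
    (hv : ∀ q ∈ V, ∑ j, gr P η q j * v j = 0) :
    ∃ δ : Derivation k κ κ, ∀ j : Fin ν, δ (η j.succ.succ) = v j := by
  classical
  let dL : Po (ν + 2) k →ₗ[k] κ :=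
    { toFun := fun p => ∑ j, gr P η p j * v j
      map_add' := fun p q => by
        rw [← Finset.sum_add_distrib]
        apply Finset.sum_congr rfl
        intro j _
        unfold gr
        rw [map_add, map_add, add_mul]
      map_smul' := fun c p => by
        rw [RingHom.id_apply, Finset.smul_sum]
        apply Finset.sum_congr rfl
        intro j _
        unfold gr
        rw [Derivation.map_smul, map_smul, smul_mul_assoc] }
  have hdL : ∀ p, dL p = ∑ j, gr P η p j * v j := fun p => rfl
  have hmul : ∀ p q, dL (p * q) = aeval η p * dL q + aeval η q * dL p := by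
    intro p q
    rw [hdL, hdL, hdL, Finset.mul_sum, Finset.mul_sum, ← Finset.sum_add_distrib]
    apply Finset.sum_congr rfl
    intro j _
    unfold gr
    rw [Derivation.leibniz, smul_eq_mul, smul_eq_mul, map_add, map_mul, map_mul]
    ring
  have hX1 : ∀ n : ℕ, dL (X 1 ^ n) = 0 := by
    intro n
    rw [hdL]
    apply Finset.sum_eq_zero
    intro j _
    unfold gr
    rw [Derivation.leibniz_pow, jcb_dd_one, smul_zero, smul_zero, map_zero, zero_mul]
  have haX : ∀ n : ℕ, aeval η (X 1 ^ n : Po (ν + 2) k) = 1 := by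
    intro n
    rw [map_pow, aeval_X, hG.one, one_pow]
  have hker : ∀ p, aeval η p = 0 → dL p = 0 := by
    intro p hp
    set n := p.totalDegree with hn
    set p' : Po (ν + 2) k := ∑ s ∈ Finset.range (n + 1), X 1 ^ (n - s) * homogeneousComponent s p
      with hp'
    have e1 : p'.IsHomogeneous n := by
      apply IsHomogeneous.sum
      intro s hs
      have h1 : n - s + s = n := Nat.sub_add_cancel (Nat.lt_succ_iff.1 (Finset.mem_range.1 hs))
      have h2 := (isHomogeneous_X_pow (R := k) (1 : Fin (ν + 2)) (n - s)).mul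
        (homogeneousComponent_isHomogeneous s p)
      rwa [h1] at h2
    have e2 : aeval η p' = 0 := by
      rw [hp', map_sum, ← hp]
      conv_rhs => rw [← sum_homogeneousComponent p, map_sum]
      apply Finset.sum_congr rfl
      intro s _
      rw [map_mul, haX, one_mul]
    have e3 : dL p' = 0 := hv p' ((hG.iff n p' e1).1 e2)
    have e4 : dL p' = dL p := by
      rw [hp', map_sum]
      conv_rhs => rw [← sum_homogeneousComponent p, map_sum]
      apply Finset.sum_congr rfl
      intro s _
      rw [hmul, haX, hX1, one_mul, mul_zero, add_zero]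
    rw [← e4, e3]
  have hwell : ∀ p q : Po (ν + 2) k, aeval η p = aeval η q → dL p = dL q := by
    intro p q h
    rw [← sub_eq_zero, ← map_sub]
    apply hker
    rw [map_sub, h, sub_self]
  let A : Subalgebra k κ := (aeval η : Po (ν + 2) k →ₐ[k] κ).range
  have hA : ∀ a : A, ∃ p : Po (ν + 2) k, aeval η p = (a : κ) := fun a => a.2
  choose g hg using hA
  let D0 : A →ₗ[k] κ :=
    { toFun := fun a => dL (g a)
      map_add' := fun a b => by
        rw [← map_add]
        apply hwell
        rw [hg, map_add, hg, hg]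
        rfl
      map_smul' := fun c a => by
        rw [RingHom.id_apply, ← map_smul]
        apply hwell
        rw [hg, map_smul, hg]
        rfl }
  have hD0 : ∀ a b : A, D0 (a * b) = a • D0 b + b • D0 a := by
    intro a b
    have e1 : D0 (a * b) = dL (g a * g b) := by
      apply hwell
      rw [hg, map_mul, hg, hg]
      rfl
    rw [e1, hmul, hg, hg]
    rfl
  have hfrac : IsFractionRing A κ := by
    apply IsFractionRing.of_field
    intro z
    have hz : z ∈ IntermediateField.adjoin k (Set.range η) := by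
      rw [hG.top]
      trivial
    obtain ⟨p, q, hpq⟩ := (IntermediateField.mem_adjoin_range_iff k η z).1 hz
    exact ⟨⟨aeval η p, p, rfl⟩, ⟨aeval η q, q, rfl⟩, hpq⟩
  obtain ⟨δ, hδ⟩ := jcb_ext_der (L := κ) (Derivation.mk' D0 hD0)
  refine ⟨(aeval η (pderiv 0 P))⁻¹ • δ, fun j => ?_⟩
  have e1 : η j.succ.succ = algebraMap A κ ⟨η j.succ.succ, X j.succ.succ, aeval_X _ _⟩ := rfl
  have e2 : dL (X j.succ.succ) = aeval η (pderiv 0 P) * v j := by
    rw [hdL]
    have e3 : ∀ i, gr P η (X j.succ.succ) i * v i =
        if j = i then aeval η (pderiv 0 P) * v j else 0 := by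
      intro i
      unfold gr
      rw [jcb_dd_X]
      split_ifs with h
      · subst h
        rw [mul_one]
      · rw [mul_zero, map_zero, zero_mul]
    rw [Finset.sum_congr rfl fun i _ => e3 i]
    simp
  have e4 : δ (η j.succ.succ) = dL (X j.succ.succ) := by
    rw [e1, hδ]
    show dL (g _) = _
    apply hwell
    rw [hg, aeval_X]
  rw [Derivation.smul_apply, e4, e2, smul_eq_mul, ← mul_assoc, inv_mul_cancel₀ hP0, one_mul]

/-- a derivation which kills the last coordinates is zero -/
theorem jcb_inj (P : Po (ν + 2) k) {V : Ideal (Po (ν + 2) k)} {r : ℕ} {η : Fin (ν + 2) → κ}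
    (hG : Gv V r η) (hP : aeval η P = 0) (hP0 : aeval η (pderiv 0 P) ≠ 0)
    (δ : Derivation k κ κ) (h : ∀ j : Fin ν, δ (η j.succ.succ) = 0) : δ = 0 := by
  have h0 : δ (η 0) = 0 := by
    have e1 := jcb_der_eval δ η hG.one P
    simp only [h, mul_zero, Finset.sum_const_zero, add_zero] at e1
    rw [hP, map_zero] at e1
    exact (mul_eq_zero.1 e1.symm).resolve_left hP0
  have h1 : ∀ p : Po (ν + 2) k, δ (aeval η p) = 0 := by
    intro p
    rw [jcb_der_eval δ η hG.one p, h0, mul_zero, zero_add]
    apply Finset.sum_eq_zero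
    intro j _
    rw [h, mul_zero]
  ext z
  rw [Derivation.zero_apply]
  have hz : z ∈ IntermediateField.adjoin k (Set.range η) := by
    rw [hG.top]
    trivial
  obtain ⟨p, q, hpq⟩ := (IntermediateField.mem_adjoin_range_iff k η z).1 hz
  rw [hpq, Derivation.leibniz_div, h1, h1]
  simp

end

theorem pf_JCB : T_JCB := by
  intro ν r₀ r k κ _ _ _ _ P V η hH hprime hV hPV hG hP0
  classical
  have hP : aeval η P = 0 := jcb_aeval_zero hV hG hPV
  -- a basis of the conormal space
  obtain ⟨m, p, hp, hli, hspan⟩ : ∃ (m : ℕ) (p : Fin m → Po (ν + 2) k),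
      (∀ i, p i ∈ V ∧ ∃ s, (p i).IsHomogeneous s) ∧ LinearIndependent κ (fun i => gr P η (p i)) ∧
      ∀ q ∈ V, gr P η q ∈ Submodule.span κ (Set.range fun i => gr P η (p i)) := by
    set S : Set (Fin ν → κ) := {w | ∃ (s : ℕ) (q : Po (ν + 2) k), q ∈ V ∧ q.IsHomogeneous s ∧
      w = gr P η q} with hS
    obtain ⟨b, hbS, hbspan, hbli⟩ := exists_linearIndependent κ S
    have hbfin : b.Finite := hbli.setFinite
    have := hbfin.fintype
    let e : Fin (Fintype.card b) ≃ b := (Fintype.equivFin b).symm
    have hex : ∀ i, ∃ q : Po (ν + 2) k, q ∈ V ∧ (∃ s, q.IsHomogeneous s) ∧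
        (e i : Fin ν → κ) = gr P η q := by
      intro i
      obtain ⟨s, q, h1, h2, h3⟩ := hbS (e i).2
      exact ⟨q, h1, ⟨s, h2⟩, h3⟩
    choose p h1 h2 h3 using hex
    have h4 : (fun i => gr P η (p i)) = fun i => (e i : Fin ν → κ) := funext fun i => (h3 i).symm
    refine ⟨Fintype.card b, p, fun i => ⟨h1 i, h2 i⟩, ?_, ?_⟩
    · rw [h4]
      exact hbli.comp e e.injective
    · intro q hq
      have h5 : Set.range (fun i => (e i : Fin ν → κ)) = b := by
        ext w
        constructor
        · rintro ⟨i, rfl⟩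
          exact (e i).2
        · intro hw
          exact ⟨e.symm ⟨w, hw⟩, by simp⟩
      rw [h4, h5, hbspan]
      have h6 : gr P η q = ∑ s ∈ Finset.range (q.totalDegree + 1),
          gr P η (homogeneousComponent s q) := by
        funext j
        rw [Finset.sum_apply]
        unfold gr
        conv_lhs => rw [← sum_homogeneousComponent q, map_sum, map_sum]
      rw [h6]
      apply Submodule.sum_mem
      intro s _
      apply Submodule.subset_span
      exact ⟨s, _, hV q hq s, homogeneousComponent_isHomogeneous s q, rfl⟩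
  -- the dimension
  obtain ⟨hfin, hrank⟩ := jcb_finrank_der (κ := κ) r hG.trd
  let M : Matrix (Fin m) (Fin ν) κ := Matrix.of fun i => gr P η (p i)
  have hMrank : M.rank = m := by
    have := LinearIndependent.rank_matrix (M := M) hli
    rwa [Fintype.card_fin] at this
  let φ : Derivation k κ κ →ₗ[κ] (Fin ν → κ) :=
    { toFun := fun δ j => δ (η j.succ.succ)
      map_add' := fun a b => by
        funext i
        rfl
      map_smul' := fun a b => by
        funext i
        rfl }
  have hφinj : Function.Injective φ := by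
    rw [← LinearMap.ker_eq_bot, LinearMap.ker_eq_bot']
    intro δ hδ
    exact jcb_inj P hG hP hP0 δ fun j => congrFun hδ j
  have hφrange : LinearMap.range φ = LinearMap.ker M.mulVecLin := by
    ext v
    rw [LinearMap.mem_range, LinearMap.mem_ker, Matrix.mulVecLin_apply]
    constructor
    · rintro ⟨δ, rfl⟩
      funext i
      exact jcb_perp P δ η hG.one hP (p i) (jcb_aeval_zero hV hG (hp i).1)
    · intro hMv
      have h1 : ∀ w ∈ Submodule.span κ (Set.range fun i => gr P η (p i)),
          ∑ j, w j * v j = 0 := by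
        intro w hw
        induction hw using Submodule.span_induction with
        | mem x hx =>
          obtain ⟨i, rfl⟩ := hx
          exact congrFun hMv i
        | zero => simp
        | add x y _ _ hx hy =>
          simp only [Pi.add_apply, add_mul, Finset.sum_add_distrib, hx, hy, add_zero]
        | smul c x _ hx =>
          simp only [Pi.smul_apply, smul_eq_mul, mul_assoc, ← Finset.mul_sum, hx, mul_zero]
      obtain ⟨δ, hδ⟩ := jcb_ext P hG hP0 v fun q hq => h1 _ (hspan q hq)
      exact ⟨δ, funext hδ⟩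
  have hdim : m + r = ν := by
    have e1 := LinearMap.finrank_range_add_finrank_ker M.mulVecLin
    rw [← hφrange, LinearMap.finrank_range_of_inj hφinj, hrank, Module.finrank_fintype_fun_eq_card,
      Fintype.card_fin] at e1
    have e2 : Module.finrank κ (LinearMap.range M.mulVecLin) = m := hMrank
    rw [e2] at e1
    exact e1
  refine ⟨by omega, ?_⟩
  obtain rfl : m = ν - r := by omega
  -- equal degrees
  choose d hd using fun i => (hp i).2
  set s : ℕ := ∑ i, d i with hs
  have hds : ∀ i, d i ≤ s := fun i =>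
    Finset.single_le_sum (f := d) (fun j _ => Nat.zero_le _) (Finset.mem_univ i)
  have hgr : ∀ i, gr P η (X 1 ^ (s - d i) * p i) = gr P η (p i) := by
    intro i
    funext j
    unfold gr
    rw [Derivation.leibniz, smul_eq_mul, smul_eq_mul, map_add, map_mul, map_mul, map_pow, aeval_X,
      hG.one, one_pow, one_mul, jcb_aeval_zero hV hG (hp i).1, zero_mul, add_zero]
  refine ⟨s, fun i => X 1 ^ (s - d i) * p i, fun i => ⟨V.mul_mem_left _ (hp i).1, ?_⟩, ?_, ?_⟩
  · have h1 := (isHomogeneous_X_pow (R := k) (1 : Fin (ν + 2)) (s - d i)).mul (hd i)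
    rwa [Nat.sub_add_cancel (hds i)] at h1
  · simp only [hgr]
    exact hli
  · intro q hq
    simp only [hgr]
    exact hspan q hq

end Pool.Agent.H43.ED
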