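import Mathlib
import Pool.Agent.H2.ED.Targets3

/-!
# Fields of infinite transcendence degree, row DSP: the number of the preimages
-/

set_option autoImplicit false

open MvPolynomial
open Pool.Agent.H12.ZD (pmap)
open Pool.Agent.H18.HIT Pool.Agent.H18.HX Pool.Agent.H18.VZ
open Pool.Agent.H2.ED

namespace Pool.Agent.H43.ED

section

variable {N : ℕ} {k₀ k : Type} [Field k₀] [Field k] [Algebra k₀ k]

theorem ds_eval_up (y : Fin N → k₀) (q : Po N k₀) :
    eval (fun i => algebraMap k₀ k (y i)) (up₀ k₀ q : Po N k) = algebraMap k₀ k (eval y q) := by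
  unfold up₀
  rw [eval_map, MvPolynomial.eval₂_comp]
  rfl

theorem ds_eval_up' (x : Fin N → k) (q : Po N k₀) :
    eval x (up₀ k₀ q : Po N k) = aeval x q := by
  unfold up₀
  rw [eval_map]
  rfl

theorem ds_zer {I₀ : Ideal (Po N k₀)} {x : Fin N → k} :
    Zer (Ideal.map (up₀ k₀ : Po N k₀ →+* Po N k) I₀) x ↔ ∀ q ∈ I₀, aeval x q = 0 := by
  constructor
  · intro h q hq
    rw [← ds_eval_up']
    exact h _ (Ideal.mem_map_of_mem _ hq)
  · intro h
    have h1 : Ideal.map (up₀ k₀ : Po N k₀ →+* Po N k) I₀ ≤ RingHom.ker (eval x : Po N k →+* k) := by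
      rw [Ideal.map_le_iff_le_comap]
      intro q hq
      rw [Ideal.mem_comap, RingHom.mem_ker, ds_eval_up']
      exact h q hq
    intro q hq
    exact h1 hq

theorem ds_zer_up {I₀ : Ideal (Po N k₀)} {y : Fin N → k₀} (h : Zer I₀ y) :
    Zer (Ideal.map (up₀ k₀ : Po N k₀ →+* Po N k) I₀) (fun i => algebraMap k₀ k (y i)) := by
  rw [ds_zer]
  intro q hq
  rw [← ds_eval_up', ds_eval_up, h q hq, map_zero]

/-- evaluation of an expansion -/
theorem ds_eval_sum {m : ℕ} (ω : Fin m → k) (q : Fin m → Po N k₀) (y : Fin N → k₀) :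
    eval (fun i => algebraMap k₀ k (y i)) (∑ j, C (ω j) * up₀ k₀ (q j)) =
      ∑ j, eval y (q j) • ω j := by
  rw [map_sum]
  apply Finset.sum_congr rfl
  intro j _
  rw [map_mul, eval_C, ds_eval_up, Algebra.smul_def, mul_comm]

end

theorem pf_DSP (hX : T_DSX) (hN : T_DSN) : T_DSP := by
  classical
  intro L e k₀ k _ _ _ _ I₀ f₀ hP
  obtain ⟨c, hc, hcc⟩ := hP
  obtain ⟨m, ω, q, hω, hcq⟩ := hX L k₀ k c
  obtain ⟨j, hj⟩ : ∃ j, q j ∉ I₀ := by
    by_contra hcon
    push Not at hcon
    apply hc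
    rw [hcq]
    apply Ideal.sum_mem
    intro j _
    exact Ideal.mul_mem_left _ _ (Ideal.mem_map_of_mem _ (hcon j))
  refine ⟨q j, hj, ?_⟩
  intro y hy hyj
  obtain ⟨S, hSc, hS1, hS2⟩ := hcc (fun i => algebraMap k₀ k (y i)) (ds_zer_up hy) (by
    rw [hcq, ds_eval_sum]
    intro h
    exact hyj ((Fintype.linearIndependent_iff.1 hω) _ h j))
  -- enumeration of the preimages
  have hcard : Fintype.card (Fin e) = Fintype.card S := by simp [hSc]
  obtain E : Fin e ≃ S := Fintype.equivOfCardEq hcard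
  obtain ⟨x, hx⟩ : ∃ x : Fin e → Fin L → k, ∀ a, x a = (E a : Fin L → k) := ⟨_, fun _ => rfl⟩
  have hxS : ∀ a, x a ∈ S := fun a => by
    rw [hx]
    exact (E a).2
  have hxinj : ∀ a b, x a = x b → a = b := by
    intro a b h
    rw [hx, hx] at h
    exact E.injective (Subtype.ext h)
  have hminor : ∀ a b : Fin e, a ≠ b → ∃ p : Fin L × Fin L,
      x a p.1 * x b p.2 - x a p.2 * x b p.1 ≠ 0 := by
    intro a b hab
    by_contra hcon
    push Not at hcon
    have h1 : ∀ i j, x a i * x b j = x a j * x b i := fun i j =>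
      sub_eq_zero.1 (hcon (i, j))
    by_cases h0 : ∀ i, x a i = 0
    · exact hab (hxinj a b (hS2 (x b) (hxS b) (x a) (hxS a) 0 fun i => by rw [h0 i, zero_mul]))
    · push Not at h0
      obtain ⟨i, hi⟩ := h0
      have h2 := hS2 (x a) (hxS a) (x b) (hxS b) (x b i / x a i) fun j => by
        have := h1 i j
        field_simp
        linear_combination this
      exact hab (hxinj a b h2.symm)
  choose pr hpr using hminor
  obtain ⟨J, hJ⟩ : ∃ J : Ideal (MvPolynomial (Fin e × Fin L) k₀), J = Ideal.span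
      ({g | ∃ (a : Fin e) (q : Po L k₀), q ∈ I₀ ∧ g = rename (fun i => (a, i)) q} ∪
       {g | ∃ (a : Fin e) (i : Fin L), g = rename (fun i => (a, i)) (f₀ i) - C (y i)}) := ⟨_, rfl⟩
  obtain ⟨g, hg⟩ : ∃ g : MvPolynomial (Fin e × Fin L) k₀, g = ∏ a, ∏ b,
      if h : a = b then 1 else X (a, (pr a b h).1) * X (b, (pr a b h).2) -
        X (a, (pr a b h).2) * X (b, (pr a b h).1) := ⟨_, rfl⟩
  obtain ⟨x₀, h1, h2⟩ := hN (Fin e × Fin L) k₀ k J g (fun p => x p.1 p.2) (by
    have h1 : J ≤ RingHom.ker (aeval (fun p : Fin e × Fin L => x p.1 p.2) :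
        MvPolynomial (Fin e × Fin L) k₀ →ₐ[k₀] k).toRingHom := by
      rw [hJ, Ideal.span_le]
      rintro p (⟨a, q, hq, rfl⟩ | ⟨a, i, rfl⟩)
      · show aeval (fun p : Fin e × Fin L => x p.1 p.2) (rename (fun i => (a, i)) q) = 0
        rw [aeval_rename]
        exact ds_zer.1 (hS1 _ (hxS a)).1 q hq
      · show aeval (fun p : Fin e × Fin L => x p.1 p.2)
          (rename (fun i => (a, i)) (f₀ i) - C (y i)) = 0
        rw [map_sub, aeval_rename, aeval_C]
        have h3 := congrFun (hS1 _ (hxS a)).2 i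
        have h4 : pmap (fun i => (up₀ k₀ (f₀ i) : Po L k)) (x a) i = aeval (x a) (f₀ i) :=
          ds_eval_up' _ _
        rw [h4] at h3
        exact sub_eq_zero.2 h3
    intro q hq
    exact h1 hq) (by
    rw [hg, map_prod]
    apply Finset.prod_ne_zero_iff.2
    intro a _
    rw [map_prod]
    apply Finset.prod_ne_zero_iff.2
    intro b _
    split_ifs with hab
    · rw [map_one]
      exact one_ne_zero
    · rw [map_sub, map_mul, map_mul, aeval_X, aeval_X, aeval_X, aeval_X]
      exact hpr a b hab)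
  -- the points over the subfield
  have hzer : ∀ a, Zer I₀ (fun i => x₀ (a, i)) := by
    intro a q hq
    have h3 := h1 (rename (fun i => (a, i)) q) (by
      rw [hJ]
      exact Ideal.subset_span (Or.inl ⟨a, q, hq, rfl⟩))
    rw [eval_rename] at h3
    exact h3
  have hpm : ∀ a, pmap f₀ (fun i => x₀ (a, i)) = y := by
    intro a
    funext i
    have h3 := h1 (rename (fun i => (a, i)) (f₀ i) - C (y i)) (by
      rw [hJ]
      exact Ideal.subset_span (Or.inr ⟨a, i, rfl⟩))
    rw [map_sub, eval_rename, eval_C] at h3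
    exact sub_eq_zero.1 h3
  have hmin0 : ∀ a b, ∀ h : a ≠ b, x₀ (a, (pr a b h).1) * x₀ (b, (pr a b h).2) -
      x₀ (a, (pr a b h).2) * x₀ (b, (pr a b h).1) ≠ 0 := by
    intro a b hab
    rw [hg, map_prod] at h2
    have h3 := Finset.prod_ne_zero_iff.1 h2 a (Finset.mem_univ a)
    rw [map_prod] at h3
    have h4 := Finset.prod_ne_zero_iff.1 h3 b (Finset.mem_univ b)
    rw [dif_neg hab, map_sub, map_mul, map_mul, eval_X, eval_X, eval_X, eval_X] at h4
    exact h4
  have hprop : ∀ a b : Fin e, ∀ t : k₀, (∀ i, x₀ (b, i) = t * x₀ (a, i)) → a = b := by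
    intro a b t h
    by_contra hab
    apply hmin0 a b hab
    rw [h, h]
    ring
  have hinj : Function.Injective (fun a : Fin e => fun i => x₀ (a, i)) := by
    intro a b h
    apply hprop a b 1
    intro i
    rw [one_mul]
    exact (congrFun h i).symm
  refine ⟨Finset.univ.image (fun a : Fin e => fun i => x₀ (a, i)), ?_, ?_, ?_⟩
  · rw [Finset.card_image_of_injective _ hinj, Finset.card_univ, Fintype.card_fin]
  · intro z hz
    obtain ⟨a, -, rfl⟩ := Finset.mem_image.1 hz
    exact ⟨hzer a, hpm a⟩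
  · intro z hz z' hz' t ht
    obtain ⟨a, -, rfl⟩ := Finset.mem_image.1 hz
    obtain ⟨b, -, rfl⟩ := Finset.mem_image.1 hz'
    rw [hprop a b t ht]

end Pool.Agent.H43.ED
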