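import Mathlib
import Pool.Agent.H2.ED.Targets3
import Pool.Agent.H43.ED.DSP

/-!
# Fields of infinite transcendence degree, row DSF: the reduction
-/

set_option autoImplicit false

open MvPolynomial
open Pool.Agent.H12.ZD (pmap)
open Pool.Agent.H18.HIT Pool.Agent.H18.HX Pool.Agent.H18.VZ
open Pool.Agent.H2.ED

namespace Pool.Agent.H43.ED

section

variable {N M : ℕ} {k₀ k : Type} [Field k₀] [Field k] [Algebra k₀ k]

theorem ds_up_inj {p q : Po N k₀} (h : (up₀ k₀ p : Po N k) = up₀ k₀ q) : p = q :=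
  MvPolynomial.map_injective _ (algebraMap k₀ k).injective h

theorem ds_up_zero {p : Po N k₀} (h : (up₀ k₀ p : Po N k) = 0) : p = 0 :=
  ds_up_inj (h.trans (map_zero _).symm)

theorem ds_hom_comp (t : ℕ) (q : Po N k₀) :
    homogeneousComponent t (up₀ k₀ q : Po N k) = up₀ k₀ (homogeneousComponent t q) := by
  ext d
  unfold up₀
  rw [coeff_homogeneousComponent, coeff_map, coeff_map, coeff_homogeneousComponent]
  split_ifs
  · rfl
  · rw [map_zero]

theorem ds_hom_iff {t : ℕ} {q : Po N k₀} (h : (up₀ k₀ q : Po N k).IsHomogeneous t) :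
    q.IsHomogeneous t := by
  intro d hd
  apply h
  unfold up₀
  rw [coeff_map]
  exact (map_ne_zero _).2 hd

theorem ds_hom_up {t : ℕ} {q : Po N k₀} (h : q.IsHomogeneous t) :
    (up₀ k₀ q : Po N k).IsHomogeneous t := h.map _

theorem ds_aeval_up (u : Fin M → Po N k₀) (q : Po M k₀) :
    aeval (fun i => (up₀ k₀ (u i) : Po N k)) (up₀ k₀ q : Po M k) = up₀ k₀ (aeval u q) := by
  induction q using MvPolynomial.induction_on with
  | C a =>
    unfold up₀
    rw [map_C, aeval_C, aeval_C]
    simp [MvPolynomial.algebraMap_eq]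
  | add p q hp hq => rw [map_add, map_add, map_add, map_add, hp, hq]
  | mul_X p i hp =>
    rw [map_mul, map_mul, map_mul, map_mul, hp, aeval_X]
    have : (up₀ k₀ (X i : Po M k₀) : Po M k) = X i := map_X _ i
    rw [this, aeval_X]

theorem ds_up_X (i : Fin N) : (up₀ k₀ (X i : Po N k₀) : Po N k) = X i := map_X _ i

/-- a polynomial with coefficients in the subfield -/
theorem ds_range {p : Po N k} (h : ∀ a ∈ p.coeffs, ∃ a₀ : k₀, algebraMap k₀ k a₀ = a) :
    ∃ q : Po N k₀, (up₀ k₀ q : Po N k) = p := by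
  have h1 : p ∈ Set.range (MvPolynomial.map (algebraMap k₀ k)) := by
    rw [MvPolynomial.mem_range_map_iff_coeffs_subset]
    intro a ha
    exact h a ha
  exact h1

theorem ds_pmap_up (f₀ : Tup N k₀) (y : Fin N → k₀) :
    pmap (fun i => (up₀ k₀ (f₀ i) : Po N k)) (fun i => algebraMap k₀ k (y i)) =
      fun i => algebraMap k₀ k (pmap f₀ y i) := by
  funext i
  exact ds_eval_up y (f₀ i)

theorem ds_iter_up (f₀ : Tup N k₀) (y : Fin N → k₀) (j : ℕ) :
    (pmap (fun i => (up₀ k₀ (f₀ i) : Po N k)))^[j] (fun i => algebraMap k₀ k (y i)) =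
      fun i => algebraMap k₀ k ((pmap f₀)^[j] y i) := by
  induction j with
  | zero => rfl
  | succ j ih => rw [Function.iterate_succ_apply', ih, ds_pmap_up, Function.iterate_succ_apply']

end

theorem pf_DSF (hK : T_DSK) (hX : T_DSX) (hA : T_DSA) (hP : T_DSP) (hT : T_DST) : T_DSF := by
  classical
  intro hF k _ _ _ L n d t I f b hprime hHmi hXi hdim hd hf hfI hdom hNfi hn hbh hbI
  -- the generators
  obtain ⟨G, hG⟩ := (IsNoetherian.noetherian I : I.FG)
  obtain ⟨u, hu⟩ : ∃ u : Fin (n + 1) → Po L k, 3 ≤ n → ∀ q : Po (n + 1) k, aeval u q ∈ I →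
      q = 0 := by
    by_cases h3 : 3 ≤ n
    · obtain ⟨⟨u, hu⟩, -⟩ := hn h3
      exact ⟨u, fun _ => hu⟩
    · exact ⟨0, fun h => absurd h h3⟩
  obtain ⟨PP, hPP⟩ : ∃ PP : Finset (Po L k), PP = G ∪ Finset.univ.image f ∪ {b} ∪
      Finset.univ.image u := ⟨_, rfl⟩
  obtain ⟨k₀, _, _, _, _, hFtd, hk₀⟩ := hK k (PP.biUnion fun p => p.coeffs)
  have hlift : ∀ p ∈ PP, ∃ q : Po L k₀, (up₀ k₀ q : Po L k) = p := by
    intro p hp
    apply ds_range
    intro a ha
    exact hk₀ a (Finset.mem_biUnion.2 ⟨p, hp, ha⟩)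
  have hGl : ∀ p ∈ G, ∃ q : Po L k₀, (up₀ k₀ q : Po L k) = p := fun p hp => hlift p (by
    rw [hPP]
    simp [hp])
  have hfl : ∀ i, ∃ q : Po L k₀, (up₀ k₀ q : Po L k) = f i := fun i => hlift (f i) (by
    rw [hPP]
    simp)
  have hul : ∀ i, ∃ q : Po L k₀, (up₀ k₀ q : Po L k) = u i := fun i => hlift (u i) (by
    rw [hPP]
    simp)
  obtain ⟨b₀, hb₀⟩ := hlift b (by
    rw [hPP]
    simp)
  choose f₀ hf₀ using hfl
  choose u₀ hu₀ using hul
  have hf₀' : (fun i => (up₀ k₀ (f₀ i) : Po L k)) = f := funext hf₀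
  have hu₀' : (fun i => (up₀ k₀ (u₀ i) : Po L k)) = u := funext hu₀
  obtain ⟨I₀, hI₀⟩ : ∃ I₀ : Ideal (Po L k₀), I₀ = Ideal.comap (up₀ k₀ : Po L k₀ →+* Po L k) I :=
    ⟨_, rfl⟩
  have hmem : ∀ q : Po L k₀, q ∈ I₀ ↔ (up₀ k₀ q : Po L k) ∈ I := by
    intro q
    rw [hI₀, Ideal.mem_comap]
  have hmap : Ideal.map (up₀ k₀ : Po L k₀ →+* Po L k) I₀ = I := by
    apply le_antisymm
    · rw [hI₀]
      exact Ideal.map_comap_le
    · rw [← hG]
      refine Ideal.span_le.2 ?_
      intro p hp
      obtain ⟨q, hq⟩ := hGl p hp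
      have h1 : q ∈ I₀ := by
        rw [hmem, hq, ← hG]
        exact Ideal.subset_span hp
      rw [← hq]
      exact Ideal.mem_map_of_mem _ h1
  have haf : ∀ q : Po L k₀, aeval f (up₀ k₀ q : Po L k) = up₀ k₀ (aeval f₀ q) := by
    intro q
    rw [← hf₀', ds_aeval_up]
  have hgst := hF k₀ hFtd L n d t I₀ f₀ b₀
  obtain ⟨x₀, hx1, hx2, hx3, hx4⟩ := hgst (by
      rw [hI₀]
      exact Ideal.comap_isPrime _ _) (by
      intro c hc j
      rw [hmem, ← ds_hom_comp]
      exact hHmi _ ((hmem c).1 hc) j) (by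
      obtain ⟨i, hi⟩ := hXi
      refine ⟨i, fun h => hi ?_⟩
      have := (hmem _).1 h
      rwa [ds_up_X] at this) (by
      intro v
      obtain ⟨q, hq0, hq⟩ := hdim fun i => up₀ k₀ (v i)
      obtain ⟨m, ω, r, hω, hqr⟩ := hX (n + 2) k₀ k q
      obtain ⟨j, hj⟩ : ∃ j, r j ≠ 0 := by
        by_contra hcon
        push Not at hcon
        apply hq0
        rw [hqr]
        apply Finset.sum_eq_zero
        intro j _
        rw [hcon j, map_zero, mul_zero]
      refine ⟨r j, hj, ?_⟩
      apply hA L m k₀ k I₀ ω (fun j => aeval v (r j)) hω ?_ j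
      rw [hmap]
      have h1 : aeval (fun i => (up₀ k₀ (v i) : Po L k)) q =
          ∑ j, C (ω j) * up₀ k₀ (aeval v (r j)) := by
        rw [hqr, map_sum]
        apply Finset.sum_congr rfl
        intro j _
        rw [map_mul, ds_aeval_up, aeval_C]
        rfl
      rw [← h1]
      exact hq) hd (by
      intro i
      apply ds_hom_iff (k := k)
      rw [hf₀]
      exact hf i) (by
      intro c hc
      rw [hmem, ← haf]
      exact hfI _ ((hmem c).1 hc)) (by
      intro s q hq h
      rw [hmem] at h ⊢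
      rw [← haf] at h
      exact hdom s _ (ds_hom_up hq) h) (by
      intro m A B hAh hBh hB hAB
      obtain ⟨s, hs⟩ := hNfi m (up₀ k₀ A) (up₀ k₀ B) (ds_hom_up hAh) (ds_hom_up hBh)
        (fun h => hB ((hmem B).2 h)) (by
          rw [haf, haf, ← map_mul, ← map_mul, ← map_sub]
          exact (hmem _).1 hAB)
      by_cases hli : LinearIndependent k₀ ![(1 : k), s]
      · exfalso
        have h1 := hA L 2 k₀ k I₀ ![1, s] ![A, -B] hli (by
          rw [hmap, Fin.sum_univ_two]
          simp only [Matrix.cons_val_zero, Matrix.cons_val_one, map_neg, C_1, one_mul]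
          have : (up₀ k₀ A : Po L k) + C s * -up₀ k₀ B = up₀ k₀ A - C s * up₀ k₀ B := by ring
          rw [this]
          exact hs) 1
        simp only [Matrix.cons_val_one, Matrix.cons_val_zero] at h1
        exact hB (by
          have := I₀.neg_mem h1
          rwa [neg_neg] at this)
      · rw [LinearIndependent.pair_iff] at hli
        push Not at hli
        obtain ⟨x, y, hxy, hne⟩ := hli
        have hy : y ≠ 0 := by
          intro hy
          rw [hy, zero_smul, add_zero, Algebra.smul_def, mul_one] at hxy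
          have hx : x = 0 := (map_eq_zero _).1 hxy
          exact hne hx hy
        have hs0 : s = algebraMap k₀ k (-x / y) := by
          rw [Algebra.smul_def, Algebra.smul_def, mul_one] at hxy
          have hy' : algebraMap k₀ k y ≠ 0 := (map_ne_zero _).2 hy
          rw [map_div₀, map_neg, eq_div_iff hy']
          linear_combination hxy
        refine ⟨-x / y, ?_⟩
        rw [hmem, map_sub, map_mul]
        have h1 : (up₀ k₀ (C (-x / y) : Po L k₀) : Po L k) = C s := by
          rw [hs0]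
          exact map_C _ _
        rw [h1]
        exact hs) (by
      intro h3
      obtain ⟨-, e, μ, Cst, h4, h5, h6, h7⟩ := hn h3
      refine ⟨⟨u₀, ?_⟩, e, μ, Cst, ?_, h5, h6, ?_⟩
      · intro q hq
        apply ds_up_zero (k := k)
        apply hu h3
        rw [← hu₀', ds_aeval_up]
        exact (hmem _).1 hq
      · apply hP L e k₀ k I₀ f₀
        rw [hmap, hf₀']
        exact h4
      · apply hT L n k₀ k I₀ f₀
        rw [hmap, hf₀']
        exact h7) (by
      apply ds_hom_iff (k := k)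
      rw [hb₀]
      exact hbh) (by
      rw [hmem, hb₀]
      exact hbI)
  have hiter : ∀ j, (pmap f)^[j] (fun i => algebraMap k₀ k (x₀ i)) =
      fun i => algebraMap k₀ k ((pmap f₀)^[j] x₀ i) := by
    intro j
    rw [← hf₀', ds_iter_up]
  refine ⟨fun i => algebraMap k₀ k (x₀ i), ?_, ?_, ?_, ?_⟩
  · rw [← hmap]
    exact ds_zer_up hx1
  · intro j h
    rw [hiter] at h
    apply hx2 j
    funext i
    have h1 := congrFun h i
    exact (map_eq_zero _).1 h1
  · intro j h
    rw [hiter, ← hb₀, ds_eval_up] at h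
    exact hx3 j ((map_eq_zero _).1 h)
  · intro s h hh hvan
    obtain ⟨m, ω, r, hω, hhr⟩ := hX L k₀ k h
    have h1 : h = ∑ j, C (ω j) * up₀ k₀ (homogeneousComponent s (r j)) := by
      have h2 : homogeneousComponent s h = h := by
        rw [homogeneousComponent_of_mem ((mem_homogeneousSubmodule _ _).2 hh), if_pos rfl]
      conv_lhs => rw [← h2, hhr, map_sum]
      apply Finset.sum_congr rfl
      intro j _
      rw [homogeneousComponent_C_mul, ds_hom_comp]
    have h3 : ∀ j, homogeneousComponent s (r j) ∈ I₀ := by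
      intro j
      apply hx4 s _ (homogeneousComponent_isHomogeneous s (r j))
      intro i
      have h4 := hvan i
      rw [hiter, h1, ds_eval_sum] at h4
      exact (Fintype.linearIndependent_iff.1 hω) _ h4 j
    rw [h1]
    apply Ideal.sum_mem
    intro j _
    exact Ideal.mul_mem_left _ _ ((hmem _).1 (h3 j))

end Pool.Agent.H43.ED
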